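import Pool.Agent.Lib_helper69.HM.G2
import Pool.Agent.Lib_helper69.HM.Y1

/-! # HM, block S1 (helper73) -/

open MeasureTheory Finset Filter Topology
open scoped ENNReal

namespace Pool.Agent.HM

variable {ρ : ℝ → ℝ} {m : ℝ}

/-- the density of the shifted field -/
noncomputable def S1_dens (m : ℝ) (N : ℕ) (c : ℝ) (f : Tor N → ℝ) : ℝ :=
  Real.exp (m ^ 2 * c * ∑ x, f x - m ^ 2 * c ^ 2 * (Fintype.card (Tor N)) / 2)

theorem S1_dens_meas (m : ℝ) (N : ℕ) (c : ℝ) : Measurable (S1_dens m N c) := by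
  unfold S1_dens
  refine Real.measurable_exp.comp (Measurable.sub_const (Measurable.const_mul ?_ _) _)
  exact Finset.measurable_sum _ fun x _ => measurable_pi_apply x

theorem S1_wt (ρ : ℝ → ℝ) (m : ℝ) (N : ℕ) (k : Bool) (c : ℝ) (f : Tor N → ℝ) :
    wt ρ m (stpT N k) univ f =
      ENNReal.ofReal (S1_dens m N c (fun x => f x + c)) *
        wt ρ m (stpT N k) univ (fun x => f x + c) := by
  unfold wt
  have h1 : (∏ p ∈ edges (stpT N k) univ, ENNReal.ofReal
      (ρ ((f (p.1 + stpT N k p.2) + c) - (f p.1 + c)))) =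
      ∏ p ∈ edges (stpT N k) univ, ENNReal.ofReal (ρ (f (p.1 + stpT N k p.2) - f p.1)) := by
    refine Finset.prod_congr rfl fun p _ => ?_
    rw [add_sub_add_right_eq_sub]
  rw [h1, mul_left_comm]
  congr 1
  have h4 : 0 ≤ S1_dens m N c (fun x => f x + c) := (Real.exp_pos _).le
  rw [← ENNReal.ofReal_prod_of_nonneg fun _ _ => (Real.exp_pos _).le,
    ← ENNReal.ofReal_prod_of_nonneg fun _ _ => (Real.exp_pos _).le,
    ← ENNReal.ofReal_mul h4, ← Real.exp_sum, ← Real.exp_sum, S1_dens,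
    ← Real.exp_add]
  congr 2
  have h2 : ∑ x : Tor N, (f x + c) = (∑ x : Tor N, f x) + Fintype.card (Tor N) * c := by
    rw [Finset.sum_add_distrib, Finset.sum_const, Finset.card_univ, nsmul_eq_mul]
  have h3 : ∑ x : Tor N, -(m ^ 2 * (f x + c) ^ 2 / 2) =
      (∑ x : Tor N, -(m ^ 2 * f x ^ 2 / 2)) - m ^ 2 * c * (∑ x : Tor N, f x) -
        Fintype.card (Tor N) * (m ^ 2 * c ^ 2 / 2) := by
    rw [Finset.mul_sum, ← Finset.sum_sub_distrib, ← nsmul_eq_mul, ← Finset.card_univ,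
      ← Finset.sum_const, ← Finset.sum_sub_distrib]
    refine Finset.sum_congr rfl fun x _ => ?_
    ring
  rw [h2, h3]
  ring

theorem S1_T_meas (N : ℕ) (c : ℝ) : Measurable fun (f : Tor N → ℝ) (x : Tor N) => f x + c :=
  measurable_pi_lambda _ fun x => by
    have h : Measurable fun f : Tor N → ℝ => f x := measurable_pi_apply x
    exact h.add_const c

/-- the law of the shifted field -/
theorem S1_map (hρ : EdgeWeight ρ) (m : ℝ) (N : ℕ) (k : Bool) (c : ℝ) :
    (muT ρ m N k).map (fun f x => f x + c) =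
      (muT ρ m N k).withDensity (fun f => ENNReal.ofReal (S1_dens m N c f)) := by
  have hw := (nice_wt hρ m (stpT N k) univ).meas
  have hT := S1_T_meas N c
  have hD : Measurable fun f : Tor N → ℝ => ENNReal.ofReal (S1_dens m N c f) :=
    (S1_dens_meas m N c).ennreal_ofReal
  refine Measure.ext_of_lintegral _ fun F hF => ?_
  rw [lintegral_map hF hT, lintegral_withDensity_eq_lintegral_mul _ hD hF]
  unfold muT
  have e1 := lintegral_gib hw univ 0 (hF.comp hT)
  have e2 := lintegral_gib hw univ 0 (hD.mul hF)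
  refine e1.trans (Eq.trans ?_ e2.symm)
  congr 1
  have h1 : (fun f : Tor N → ℝ => (F ∘ fun (f : Tor N → ℝ) (x : Tor N) => f x + c) f *
      wt ρ m (stpT N k) univ f) =
      fun f => (fun g => ((fun f => ENNReal.ofReal (S1_dens m N c f)) * F) g *
        wt ρ m (stpT N k) univ g) (f + fun _ => c) := by
    funext f
    rw [S1_wt ρ m N k c f]
    have e : (f + fun _ => c) = fun x => f x + c := rfl
    rw [e]
    simp only [Pi.mul_apply, Function.comp]
    ring
  have h2 : Measurable fun g : Tor N → ℝ => ((fun f => ENNReal.ofReal (S1_dens m N c f)) * F) g *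
        wt ρ m (stpT N k) univ g := (hD.mul hF).mul hw
  rw [h1, lm_add h2]
  unfold lm
  rw [lmarginal_univ]

/-- shift of the field by a constant -/
theorem shift_exp (hρ : EdgeWeight ρ) (hm : 0 < m) (N : ℕ) (k : Bool) (c : ℝ)
    {F : (Tor N → ℝ) → ℝ} (mF : Measurable F) {B : ℝ} (hB : ∀ f, |F f| ≤ B) :
    ∫ f, F f * Real.exp (m ^ 2 * c * ∑ x, f x) ∂muT ρ m N k =
      Real.exp (m ^ 2 * c ^ 2 * (Fintype.card (Tor N)) / 2) *
        ∫ f, F (fun x => f x + c) ∂muT ρ m N k := by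
  have hT := S1_T_meas N c
  have hD : Measurable fun f : Tor N → ℝ => ENNReal.ofReal (S1_dens m N c f) :=
    (S1_dens_meas m N c).ennreal_ofReal
  have h1 : ∫ f, F (fun x => f x + c) ∂muT ρ m N k =
      ∫ f, F f ∂(muT ρ m N k).map (fun f x => f x + c) := by
    rw [integral_map hT.aemeasurable mF.aestronglyMeasurable]
  rw [h1, S1_map hρ, integral_withDensity_eq_integral_toReal_smul hD
    (Eventually.of_forall fun _ => ENNReal.ofReal_lt_top), ← integral_const_mul]
  refine integral_congr_ae (Eventually.of_forall fun f => ?_)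
  show F f * Real.exp (m ^ 2 * c * ∑ x, f x) = Real.exp (m ^ 2 * c ^ 2 *
    (Fintype.card (Tor N)) / 2) * ((ENNReal.ofReal (S1_dens m N c f)).toReal • F f)
  have h4 : 0 ≤ S1_dens m N c f := (Real.exp_pos _).le
  rw [ENNReal.toReal_ofReal h4, S1_dens, smul_eq_mul, ← mul_assoc, ← Real.exp_add,
    mul_comm (F f)]
  congr 2
  ring

theorem S1_tr_meas (L : ℝ) : Measurable (tr L) := by
  unfold tr
  exact measurable_const.max (measurable_id.min measurable_const)

theorem S1_tr_mono (L : ℝ) : Monotone (tr L) := by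
  intro s t h
  unfold tr
  exact max_le_max le_rfl (min_le_min h le_rfl)

theorem S1_tr_abs {L : ℝ} (hL : 0 ≤ L) (t : ℝ) : |tr L t| ≤ L := by
  unfold tr
  rw [abs_le]
  exact ⟨le_max_left _ _, max_le (by linarith) (min_le_right _ _)⟩

theorem S1_tr_lip (L : ℝ) {s t : ℝ} (h : s ≤ t) : tr L t - tr L s ≤ t - s := by
  unfold tr
  rcases le_total s L with h1 | h1 <;> rcases le_total t L with h2 | h2 <;>
    rcases le_total (-L) s with h3 | h3 <;> rcases le_total (-L) t with h4 | h4 <;>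
    simp only [min_eq_left, min_eq_right, h1, h2, max_eq_right, max_eq_left, h3, h4] <;>
    first
      | linarith
      | (rcases le_total (-L) L with h5 | h5 <;> simp only [max_eq_right, max_eq_left, h5] <;>
          linarith)

/-- exponential moments -/
theorem S1_int_exp (hρ : EdgeWeight ρ) (hm : 0 < m) (N : ℕ) (k : Bool) (a : ℝ) :
    Integrable (fun f : Tor N → ℝ => Real.exp (a * ∑ x, f x)) (muT ρ m N k) := by
  have hZ : lm univ (wt ρ m (stpT N k) univ) 0 ≠ 0 :=
    (lm_wt_pos_const hρ m (stpT N k) univ 0).ne'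
  have h := integrable_exp_lin hρ hm (stpT N k) univ 0 hZ (fun _ => a)
  refine h.congr (Eventually.of_forall fun f => ?_)
  show Real.exp (∑ x, a * f x) = Real.exp (a * ∑ x, f x)
  rw [Finset.mul_sum]

/-- the bound with a positive shift -/
theorem S1_bound (hρ : EdgeWeight ρ) (hm : 0 < m) {L : ℝ} (hL : 0 ≤ L) (N : ℕ) (k : Bool) {c : ℝ}
    (hc : 0 < c) :
    ∫ f, tr L (f 0) * Real.sinh (m ^ 2 * c * ∑ x, f x) ∂muT ρ m N k ≤
      c * Real.exp (m ^ 2 * c ^ 2 * (Fintype.card (Tor N)) / 2) := by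
  have := muT_prob hρ hm N k
  have mF : Measurable fun f : Tor N → ℝ => tr L (f 0) := (S1_tr_meas L).comp (measurable_pi_apply 0)
  have hB : ∀ f : Tor N → ℝ, |tr L (f 0)| ≤ L := fun f => S1_tr_abs hL _
  have e1 := shift_exp hρ hm N k c mF hB
  have e2 := shift_exp hρ hm N k (-c) mF hB
  have i1 : Integrable (fun f : Tor N → ℝ => tr L (f 0) * Real.exp (m ^ 2 * c * ∑ x, f x))
      (muT ρ m N k) := by
    refine (S1_int_exp hρ hm N k (m ^ 2 * c)).bdd_mul (c := L) mF.aestronglyMeasurable ?_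
    exact Eventually.of_forall fun f => hB f
  have i2 : Integrable (fun f : Tor N → ℝ => tr L (f 0) * Real.exp (m ^ 2 * (-c) * ∑ x, f x))
      (muT ρ m N k) := by
    refine (S1_int_exp hρ hm N k (m ^ 2 * (-c))).bdd_mul (c := L) mF.aestronglyMeasurable ?_
    exact Eventually.of_forall fun f => hB f
  have e3 : ∫ f, tr L (f 0) * Real.sinh (m ^ 2 * c * ∑ x, f x) ∂muT ρ m N k =
      (∫ f, tr L (f 0) * Real.exp (m ^ 2 * c * ∑ x, f x) ∂muT ρ m N k -
        ∫ f, tr L (f 0) * Real.exp (m ^ 2 * (-c) * ∑ x, f x) ∂muT ρ m N k) / 2 := by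
    rw [← integral_sub i1 i2, ← integral_div]
    refine integral_congr_ae (Eventually.of_forall fun f => ?_)
    show tr L (f 0) * Real.sinh (m ^ 2 * c * ∑ x, f x) = (tr L (f 0) *
      Real.exp (m ^ 2 * c * ∑ x, f x) - tr L (f 0) * Real.exp (m ^ 2 * (-c) * ∑ x, f x)) / 2
    rw [Real.sinh_eq]
    have : m ^ 2 * (-c) * ∑ x, f x = -(m ^ 2 * c * ∑ x, f x) := by ring
    rw [this]
    ring
  have e4 : ∫ f : Tor N → ℝ, tr L (f 0 + c) ∂muT ρ m N k -
      ∫ f : Tor N → ℝ, tr L (f 0 + -c) ∂muT ρ m N k ≤ 2 * c := by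
    have j1 : Integrable (fun f : Tor N → ℝ => tr L (f 0 + c)) (muT ρ m N k) := by
      refine Integrable.of_bound (C := L) ?_ ?_
      · have h : Measurable fun f : Tor N → ℝ => f 0 := measurable_pi_apply 0
        exact ((S1_tr_meas L).comp (h.add_const c)).aestronglyMeasurable
      · exact Eventually.of_forall fun f => S1_tr_abs hL _
    have j2 : Integrable (fun f : Tor N → ℝ => tr L (f 0 + -c)) (muT ρ m N k) := by
      refine Integrable.of_bound (C := L) ?_ ?_
      · have h : Measurable fun f : Tor N → ℝ => f 0 := measurable_pi_apply 0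
        exact ((S1_tr_meas L).comp (h.add_const (-c))).aestronglyMeasurable
      · exact Eventually.of_forall fun f => S1_tr_abs hL _
    rw [← integral_sub j1 j2]
    have h1 : ∫ f : Tor N → ℝ, (tr L (f 0 + c) - tr L (f 0 + -c)) ∂muT ρ m N k ≤
        ∫ _f : Tor N → ℝ, 2 * c ∂muT ρ m N k := by
      refine integral_mono (j1.sub j2) (integrable_const _) fun f => ?_
      have := S1_tr_lip L (s := f 0 + -c) (t := f 0 + c) (by linarith)
      show tr L (f 0 + c) - tr L (f 0 + -c) ≤ 2 * c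
      linarith
    rw [integral_const, probReal_univ, one_smul] at h1
    exact h1
  rw [e3, e1, e2]
  have e5 : m ^ 2 * (-c) ^ 2 * (Fintype.card (Tor N)) / 2 =
      m ^ 2 * c ^ 2 * (Fintype.card (Tor N)) / 2 := by ring
  rw [e5, ← mul_sub]
  have h6 : 0 < Real.exp (m ^ 2 * c ^ 2 * (Fintype.card (Tor N)) / 2) := Real.exp_pos _
  have h7 := mul_le_mul_of_nonneg_left e4 h6.le
  linarith

theorem S1_pos (hρ : EdgeWeight ρ) (hm : 0 < m) {L : ℝ} (hL : 0 ≤ L) (N : ℕ) (k : Bool) {c : ℝ}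
    (hc : 0 < c) :
    ∑ x : Tor N, ∫ f, tr L (f 0) * tr L (f x) ∂muT ρ m N k ≤
      1 / m ^ 2 * Real.exp (m ^ 2 * c ^ 2 * (Fintype.card (Tor N)) / 2) := by
  have := muT_prob hρ hm N k
  have hmc : 0 < m ^ 2 * c := by positivity
  have mF : Measurable fun f : Tor N → ℝ => tr L (f 0) := (S1_tr_meas L).comp (measurable_pi_apply 0)
  have hB : ∀ f : Tor N → ℝ, |tr L (f 0)| ≤ L := fun f => S1_tr_abs hL _
  have mS : Measurable fun f : Tor N → ℝ => ∑ x, f x :=
    Finset.measurable_sum _ fun x _ => measurable_pi_apply x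
  have mt : ∀ x : Tor N, Measurable fun f : Tor N → ℝ => tr L (f x) := fun x =>
    (S1_tr_meas L).comp (measurable_pi_apply x)
  have isinh : Integrable (fun f : Tor N → ℝ => Real.sinh (m ^ 2 * c * ∑ x, f x)) (muT ρ m N k) := by
    have h1 := ((S1_int_exp hρ hm N k (m ^ 2 * c)).sub
      (S1_int_exp hρ hm N k (-(m ^ 2 * c)))).div_const 2
    refine h1.congr (Eventually.of_forall fun f => ?_)
    show (Real.exp (m ^ 2 * c * ∑ x, f x) - Real.exp (-(m ^ 2 * c) * ∑ x, f x)) / 2 =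
      Real.sinh (m ^ 2 * c * ∑ x, f x)
    rw [Real.sinh_eq, neg_mul]
  have it : ∀ x : Tor N, Integrable (fun f : Tor N → ℝ => tr L (f x)) (muT ρ m N k) := fun x =>
    Integrable.of_bound (C := L) (mt x).aestronglyMeasurable
      (Eventually.of_forall fun f => S1_tr_abs hL _)
  obtain ⟨H, hH⟩ : ∃ H : (Tor N → ℝ) → ℝ, H = fun f =>
    Real.sinh (m ^ 2 * c * ∑ x, f x) / (m ^ 2 * c) - ∑ x, tr L (f x) := ⟨_, rfl⟩
  have mH : Measurable H := by
    rw [hH]
    exact ((Real.measurable_sinh.comp (mS.const_mul _)).div_const _).sub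
      (Finset.measurable_sum _ fun x _ => mt x)
  have iH : Integrable H (muT ρ m N k) := by
    rw [hH]
    exact (isinh.div_const _).sub (integrable_finsetSum _ fun x _ => it x)
  have monoF : Monotone fun f : Tor N → ℝ => tr L (f 0) := fun f g h => S1_tr_mono L (h 0)
  have monoH : Monotone H := by
    intro f g h
    rw [hH]
    have h1 : ∑ x, tr L (g x) - ∑ x, tr L (f x) ≤ ∑ x, g x - ∑ x, f x := by
      rw [← Finset.sum_sub_distrib, ← Finset.sum_sub_distrib]
      exact Finset.sum_le_sum fun x _ => S1_tr_lip L (h x)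
    have h2 : ∑ x, f x ≤ ∑ x, g x := Finset.sum_le_sum fun x _ => h x
    have h3 : m ^ 2 * c * ∑ x, g x - m ^ 2 * c * ∑ x, f x ≤
        Real.sinh (m ^ 2 * c * ∑ x, g x) - Real.sinh (m ^ 2 * c * ∑ x, f x) := by
      have := Real.sinh_sub_id_strictMono.monotone (mul_le_mul_of_nonneg_left h2 hmc.le)
      linarith
    have h4 : ∑ x, g x - ∑ x, f x ≤ Real.sinh (m ^ 2 * c * ∑ x, g x) / (m ^ 2 * c) -
        Real.sinh (m ^ 2 * c * ∑ x, f x) / (m ^ 2 * c) := by
      rw [← sub_div, le_div_iff₀ hmc]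
      linarith
    show Real.sinh (m ^ 2 * c * ∑ x, f x) / (m ^ 2 * c) - ∑ x, tr L (f x) ≤
      Real.sinh (m ^ 2 * c * ∑ x, g x) / (m ^ 2 * c) - ∑ x, tr L (g x)
    linarith
  have h0 : lm univ (wt ρ m (stpT N k) univ) 0 ≠ 0 :=
    (lm_wt_pos_const hρ m (stpT N k) univ 0).ne'
  have h1 : lm univ (wt ρ m (stpT N k) univ) 0 ≠ ∞ := (lm_wt_lt_top hρ hm (stpT N k) univ 0).ne
  have hfkg := fkg_real (nice_wt hρ m (stpT N k) univ) univ 0 h0 h1 mF mH monoF monoH hB iH
  have hmean := muT_tr_mean hρ hm L hL N k 0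
  unfold muT at hmean
  rw [hmean, zero_mul] at hfkg
  have hb := S1_bound hρ hm hL N k hc
  have isplit : ∫ f, tr L (f 0) * H f ∂muT ρ m N k =
      (∫ f, tr L (f 0) * Real.sinh (m ^ 2 * c * ∑ x, f x) ∂muT ρ m N k) / (m ^ 2 * c) -
        ∑ x : Tor N, ∫ f, tr L (f 0) * tr L (f x) ∂muT ρ m N k := by
    have k1 : Integrable (fun f : Tor N → ℝ => tr L (f 0) * Real.sinh (m ^ 2 * c * ∑ x, f x))
        (muT ρ m N k) := isinh.bdd_mul (c := L) mF.aestronglyMeasurable
          (Eventually.of_forall fun f => hB f)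
    have k2 : ∀ x : Tor N, Integrable (fun f : Tor N → ℝ => tr L (f 0) * tr L (f x))
        (muT ρ m N k) := fun x => (it x).bdd_mul (c := L) mF.aestronglyMeasurable
          (Eventually.of_forall fun f => hB f)
    rw [← integral_div, ← integral_finsetSum _ fun x _ => k2 x, ← integral_sub (k1.div_const _)
      (integrable_finsetSum _ fun x _ => k2 x)]
    refine integral_congr_ae (Eventually.of_forall fun f => ?_)
    rw [hH]
    show tr L (f 0) * (Real.sinh (m ^ 2 * c * ∑ x, f x) / (m ^ 2 * c) - ∑ x, tr L (f x)) =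
      tr L (f 0) * Real.sinh (m ^ 2 * c * ∑ x, f x) / (m ^ 2 * c) - ∑ x, tr L (f 0) * tr L (f x)
    rw [← Finset.mul_sum]
    ring
  have hfkg' : 0 ≤ ∫ f, tr L (f 0) * H f ∂muT ρ m N k := hfkg
  rw [isplit] at hfkg'
  have h5 : (∫ f, tr L (f 0) * Real.sinh (m ^ 2 * c * ∑ x, f x) ∂muT ρ m N k) / (m ^ 2 * c) ≤
      1 / m ^ 2 * Real.exp (m ^ 2 * c ^ 2 * (Fintype.card (Tor N)) / 2) := by
    rw [div_le_iff₀ hmc]
    refine hb.trans (le_of_eq ?_)
    field_simp
  linarith

/-- susceptibility bound -/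
theorem sum_tr_le (hρ : EdgeWeight ρ) (hm : 0 < m) {L : ℝ} (hL : 0 ≤ L) (N : ℕ) (k : Bool) :
    ∑ x : Tor N, ∫ f, tr L (f 0) * tr L (f x) ∂muT ρ m N k ≤ 1 / m ^ 2 := by
  have hcont : Continuous fun c : ℝ => 1 / m ^ 2 *
      Real.exp (m ^ 2 * c ^ 2 * (Fintype.card (Tor N)) / 2) := by fun_prop
  have hlim : Tendsto (fun c : ℝ => 1 / m ^ 2 *
      Real.exp (m ^ 2 * c ^ 2 * (Fintype.card (Tor N)) / 2)) (𝓝[>] 0) (𝓝 (1 / m ^ 2)) := by
    have h := (hcont.tendsto 0).mono_left (nhdsWithin_le_nhds (s := Set.Ioi 0))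
    simpa using h
  refine ge_of_tendsto hlim ?_
  filter_upwards [self_mem_nhdsWithin] with c hc
  exact S1_pos hρ hm hL N k hc

end Pool.Agent.HM
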